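import Mathlib
import Pool.Agent.Helper344.SBFinal

set_option autoImplicit false

namespace Pool.Agent.Results.MP_5f0f34_lc.NotCharacterized

open Pool.Agent.Helper344.SB Pool.Agent.Helper344.Blum

/-- Sanity check: Turing reducibility is reflexive. -/
theorem tle_refl (X : ℕ → Bool) : TLe X X := by
  have h2 : Computable₂ (fun (_ : ℕ) (b : Bool) => b.toNat) := by
    have hN : Computable Bool.toNat := (Primrec.dom_finite _).to_comp
    have := hN.comp (Computable.snd (α := ℕ) (β := Bool))
    exact this
  exact ((TT.query (Computable.id (α := ℕ))).map h2).reduces X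

/-- Sanity check: the halting problem is high. -/
theorem high_example : High (jump emp) := tle_refl _

/-- The standard model of arithmetic. -/
def stdN : Str ℕ where
  rel := fun _ _ => False
  fn := fun e a => if e = 0 then 0 else if e = 1 then a.getD 0 0 + 1
    else if e = 2 then a.getD 0 0 + a.getD 1 0 else a.getD 0 0 * a.getD 1 0

/-- Sanity check: it is a model of Peano arithmetic. -/
theorem isPA_stdN : IsPA stdN := by
  refine ⟨?_, ?_, ?_, ?_, ?_, ?_, ?_⟩
  · intro x; simp [stdN]
  · intro x y h; simpa [stdN] using h
  · intro x; simp [stdN]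
  · intro x y; simp [stdN]; omega
  · intro x; simp [stdN]
  · intro x y; simp [stdN, Nat.mul_succ]
  · intro φ i v _ h0 hs a
    induction a with
    | zero => exact h0
    | succ a ih => exact hs a ih

open Classical in
/-- Sanity check: there are sets of PA degree. -/
theorem pa_example : ∃ X, PADegree X := by
  refine ⟨fun n => decide (∃ φ, code φ = n ∧ φ ∈ Th LPA stdN), ℕ, stdN, isPA_stdN, _,
    tle_refl _, fun φ => ?_⟩
  rw [decide_eq_true_eq]
  constructor
  · rintro ⟨ψ, h1, h2⟩
    rw [← code_injective _ _ h1]; exact h2
  · intro h
    exact ⟨φ, rfl, h⟩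

/-- There is a saturated bounding set that is neither high nor of PA degree. -/
theorem result : ∃ X : ℕ → Bool, SaturatedBounding X ∧ ¬ High X ∧ ¬ PADegree X :=
  main_theorem

end Pool.Agent.Results.MP_5f0f34_lc.NotCharacterized
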